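import Pool.Agent.Run7.h400.GK.StmC

/-!
# Project GK, piece JAC
-/

set_option autoImplicit false

namespace Run7.h937.GK

open Run7.h400.GK
open Polynomial Finset

/-- Jacobi's formula for a derivation. -/
lemma jacobi {A B : Type} [CommRing A] [CommRing B] [Algebra A B] (D : Derivation A B B)
    {n : Type} [Fintype n] [DecidableEq n] (N : Matrix n n B) :
    D N.det = (N.adjugate * N.map D).trace := by
  have hprod : ∀ (s : Finset n) (f : n → B),
      D (∏ i ∈ s, f i) = ∑ i ∈ s, (∏ j ∈ s.erase i, f j) * D (f i) := by
    intro s f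
    induction s using Finset.induction_on with
    | empty => simp
    | insert a s ha ih =>
      rw [Finset.prod_insert ha, D.leibniz, ih, Finset.sum_insert ha, Finset.erase_insert ha]
      simp only [smul_eq_mul]
      rw [add_comm, Finset.mul_sum]
      congr 1
      refine Finset.sum_congr rfl fun i hi => ?_
      have hne : a ≠ i := fun h => ha (h ▸ hi)
      rw [Finset.erase_insert_of_ne hne, Finset.prod_insert (fun h => ha (Finset.mem_of_mem_erase h))]
      ring
  have h1 : D N.det = ∑ i, (N.updateCol i (fun l => D (N l i))).det := by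
    simp only [Matrix.det_apply']
    rw [map_sum, Finset.sum_comm]
    refine Finset.sum_congr rfl fun σ _ => ?_
    have e1 : ((Equiv.Perm.sign σ : ℤ) : B) * ∏ i, N (σ i) i =
        (Equiv.Perm.sign σ : ℤ) • ∏ i, N (σ i) i := by
      rw [zsmul_eq_mul]
    rw [e1, map_zsmul, hprod, Finset.smul_sum]
    refine Finset.sum_congr rfl fun i _ => ?_
    rw [zsmul_eq_mul]
    congr 1
    rw [← Finset.mul_prod_erase Finset.univ _ (Finset.mem_univ i), mul_comm]
    congr 1
    · simp
    · refine Finset.prod_congr rfl fun j hj => ?_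
      rw [Matrix.updateCol_ne (Finset.ne_of_mem_erase hj)]
  rw [h1]
  unfold Matrix.trace
  refine Finset.sum_congr rfl fun i _ => ?_
  rw [← Matrix.cramer_apply, Matrix.cramer_eq_adjugate_mulVec]
  rfl

theorem t_JAC : S_JAC := by
  intro O _ R M
  set Mc : Matrix (Fin R) (Fin R) (PowerSeries O) := M.map (PowerSeries.C (R := O)) with hMc
  set N : Matrix (Fin R) (Fin R) (PowerSeries O) := 1 - (PowerSeries.X : PowerSeries O) • Mc
    with hN
  have hd : dX M = N.det := rfl
  set S : Matrix (Fin R) (Fin R) (PowerSeries O) :=
    Matrix.of fun i j => PowerSeries.mk fun r => (M ^ r) i j with hS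
  have hNS : N * S = 1 := by
    rw [hN, Matrix.sub_mul, Matrix.one_mul, Matrix.smul_mul]
    ext i j r
    rw [Matrix.sub_apply, Matrix.smul_apply, smul_eq_mul, map_sub]
    rcases r with _ | r
    · rw [PowerSeries.coeff_zero_X_mul]
      simp [hS, Matrix.one_apply]
    · rw [PowerSeries.coeff_succ_X_mul, Matrix.mul_apply, map_sum]
      have e1 : ∀ l, PowerSeries.coeff r (Mc i l * S l j) = M i l * (M ^ r) l j := by
        intro l
        rw [hMc, Matrix.map_apply, PowerSeries.coeff_C_mul, hS]
        simp
      have e2 : (1 : Matrix (Fin R) (Fin R) (PowerSeries O)) i j =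
          PowerSeries.C (if i = j then (1 : O) else 0) := by
        rw [Matrix.one_apply]; split_ifs <;> simp
      rw [e2, PowerSeries.coeff_C, if_neg (by omega)]
      simp only [e1]
      rw [← Matrix.mul_apply, ← pow_succ', hS]
      simp
  have hadj : N.adjugate = N.det • S := by
    calc N.adjugate = N.adjugate * (N * S) := by rw [hNS, Matrix.mul_one]
      _ = N.det • S := by
        rw [← Matrix.mul_assoc, Matrix.adjugate_mul, Matrix.smul_mul, Matrix.one_mul]
  have hDN : N.map (PowerSeries.derivative O) = -Mc := by
    ext1 i j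
    rw [Matrix.map_apply, Matrix.neg_apply, hN, Matrix.sub_apply, map_sub, Matrix.smul_apply,
      smul_eq_mul, Derivation.leibniz]
    have e2 : (1 : Matrix (Fin R) (Fin R) (PowerSeries O)) i j =
        PowerSeries.C (if i = j then (1 : O) else 0) := by
      rw [Matrix.one_apply]; split_ifs <;> simp
    rw [e2, hMc, Matrix.map_apply]
    simp
    split_ifs <;> simp
  rw [hd, jacobi, hadj, hDN, Matrix.mul_neg, Matrix.trace_neg, Matrix.smul_mul, Matrix.trace_smul,
    smul_eq_mul]
  have hT : PowerSeries.X * (S * Mc).trace =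
      PowerSeries.mk fun r => if r = 0 then 0 else (M ^ r).trace := by
    ext r
    rcases r with _ | r
    · simp
    · rw [PowerSeries.coeff_succ_X_mul, PowerSeries.coeff_mk, if_neg (by omega)]
      unfold Matrix.trace
      rw [map_sum]
      refine Finset.sum_congr rfl fun i _ => ?_
      rw [Matrix.diag_apply, Matrix.diag_apply, pow_succ, Matrix.mul_apply, Matrix.mul_apply, map_sum]
      refine Finset.sum_congr rfl fun l _ => ?_
      rw [hMc, Matrix.map_apply, PowerSeries.coeff_mul_C, hS]
      simp
  rw [← hT]
  ring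

end Run7.h937.GK
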