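import Pool.Agent.Run7.h400.GK.StmC

/-!
# Project GK, piece NEW
-/

set_option autoImplicit false

namespace Run7.h937.GK

open Run7.h400.GK
open Polynomial Finset

/-- the reversed polynomial as a power series -/
noncomputable def rv {E : Type} [Field E] (c : E[X]) : PowerSeries E :=
  ∑ i ∈ range (c.natDegree + 1), PowerSeries.monomial (c.natDegree - i) (c.coeff i)

noncomputable def rw' {E : Type} [Field E] (c : E[X]) : PowerSeries E :=
  ∑ i ∈ range (c.natDegree + 1), PowerSeries.monomial (c.natDegree - i) ((i : E) * c.coeff i)

lemma coeff_sum_rev {E : Type} [Field E] (d n : ℕ) (a : ℕ → E) :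
    PowerSeries.coeff n (∑ i ∈ range (d + 1), PowerSeries.monomial (d - i) (a i)) =
      if n ≤ d then a (d - n) else 0 := by
  rw [map_sum]
  simp only [PowerSeries.coeff_monomial]
  split_ifs with h
  · rw [Finset.sum_eq_single (d - n)]
    · rw [if_pos (by omega)]
    · intro b hb hne
      rw [if_neg]
      have := Finset.mem_range.1 hb
      omega
    · intro h1
      exact absurd (Finset.mem_range.2 (by omega)) h1
  · refine Finset.sum_eq_zero fun i hi => ?_
    have := Finset.mem_range.1 hi
    rw [if_neg (by omega)]

lemma rv_eq_reverse {E : Type} [Field E] (c : E[X]) : rv c = ((c.reverse : E[X]) : PowerSeries E) := by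
  ext n
  rw [rv, coeff_sum_rev, Polynomial.coeff_coe, Polynomial.coeff_reverse]
  split_ifs with h
  · rw [Polynomial.revAt_le h]
  · rw [Polynomial.revAt_eq_self_of_lt (by omega)]
    exact (Polynomial.coeff_eq_zero_of_natDegree_lt (by omega)).symm

lemma rw_eq {E : Type} [Field E] (c : E[X]) :
    rw' c = (c.natDegree : PowerSeries E) * rv c -
      PowerSeries.X * PowerSeries.derivative E (rv c) := by
  ext n
  have h1 : PowerSeries.coeff n (PowerSeries.X * PowerSeries.derivative E (rv c)) =
      (n : E) * PowerSeries.coeff n (rv c) := by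
    rcases n with _ | n
    · simp
    · rw [PowerSeries.coeff_succ_X_mul, PowerSeries.coeff_derivative]
      push_cast
      ring
  have h2 : PowerSeries.coeff n ((c.natDegree : PowerSeries E) * rv c) =
      (c.natDegree : E) * PowerSeries.coeff n (rv c) := by
    rw [← nsmul_eq_mul, map_nsmul, nsmul_eq_mul]
  rw [map_sub, h1, h2, rw', rv, coeff_sum_rev, coeff_sum_rev]
  split_ifs with h
  · rw [Nat.cast_sub h]
    ring
  · ring

lemma rv_prod {E : Type} [Field E] (s : Multiset E) :
    rv ((s.map fun a => X - C a).prod) =
      (s.map fun a => (1 - PowerSeries.C a * PowerSeries.X : PowerSeries E)).prod := by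
  rw [rv_eq_reverse]
  induction s using Multiset.induction_on with
  | empty =>
    simp only [Multiset.map_zero, Multiset.prod_zero]
    rw [← Polynomial.C_1, Polynomial.reverse_C]
    simp
  | cons a s ih =>
    rw [Multiset.map_cons, Multiset.prod_cons, Multiset.map_cons, Multiset.prod_cons,
      Polynomial.reverse_mul_of_domain, Polynomial.coe_mul, ih]
    congr 1
    have h1 : (X - C a : E[X]).reverse = 1 - C a * X := by
      ext n
      rw [Polynomial.coeff_reverse, Polynomial.natDegree_X_sub_C]
      rcases n with _ | _ | n
      · rw [Polynomial.revAt_le (by omega)]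
        simp
      · rw [Polynomial.revAt_le (by omega)]
        simp [Polynomial.coeff_one]
      · rw [Polynomial.revAt_eq_self_of_lt (by omega)]
        simp [Polynomial.coeff_X, Polynomial.coeff_one]
    rw [h1]
    simp

lemma log_der {E : Type} [Field E] (s : Multiset E) :
    (Multiset.card s : PowerSeries E) *
        (s.map fun a => (1 - PowerSeries.C a * PowerSeries.X : PowerSeries E)).prod -
      PowerSeries.X * PowerSeries.derivative E
        (s.map fun a => (1 - PowerSeries.C a * PowerSeries.X : PowerSeries E)).prod =
    (s.map fun a => (1 - PowerSeries.C a * PowerSeries.X : PowerSeries E)).prod *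
      (s.map fun a => PowerSeries.mk fun m => a ^ m).sum := by
  induction s using Multiset.induction_on with
  | empty => simp
  | cons a s ih =>
    rw [Multiset.map_cons, Multiset.prod_cons, Multiset.map_cons, Multiset.sum_cons,
      Multiset.card_cons]
    set B := (s.map fun a => (1 - PowerSeries.C a * PowerSeries.X : PowerSeries E)).prod
    set G := (s.map fun a => (PowerSeries.mk fun m => a ^ m : PowerSeries E)).sum
    have h1 : (1 - PowerSeries.C a * PowerSeries.X : PowerSeries E) *
        (PowerSeries.mk fun m => a ^ m) = 1 := by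
      ext n
      rw [sub_mul, one_mul, map_sub, mul_assoc, PowerSeries.coeff_C_mul]
      rcases n with _ | n
      · simp
      · rw [PowerSeries.coeff_succ_X_mul]
        simp [PowerSeries.coeff_one, pow_succ']
    have h2 : PowerSeries.derivative E ((1 - PowerSeries.C a * PowerSeries.X : PowerSeries E) * B) =
        (1 - PowerSeries.C a * PowerSeries.X) * PowerSeries.derivative E B -
          PowerSeries.C a * B := by
      rw [Derivation.leibniz]
      simp only [smul_eq_mul, map_sub, Derivation.leibniz, PowerSeries.derivative_C,
        PowerSeries.derivative_X]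
      simp
      ring
    rw [h2]
    push_cast
    calc (((Multiset.card s : PowerSeries E) + 1) * ((1 - PowerSeries.C a * PowerSeries.X) * B) -
          PowerSeries.X * ((1 - PowerSeries.C a * PowerSeries.X) * PowerSeries.derivative E B -
            PowerSeries.C a * B))
        = (1 - PowerSeries.C a * PowerSeries.X) *
            ((Multiset.card s : PowerSeries E) * B - PowerSeries.X * PowerSeries.derivative E B)
          + B := by ring
      _ = (1 - PowerSeries.C a * PowerSeries.X) * (B * G) +
            B * ((1 - PowerSeries.C a * PowerSeries.X) * (PowerSeries.mk fun m => a ^ m)) := by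
          rw [ih, h1, mul_one]
      _ = _ := by ring

theorem t_NEW : S_NEW := by
  intro Fq Kb _ _ _ _ m c hc
  set φ := algebraMap Fq Kb with hφ
  set s := (c.map φ).roots with hs
  have hcm : (c.map φ).Monic := hc.map φ
  have hsplit : (s.map fun a => X - C a).prod = c.map φ :=
    ((IsAlgClosed.splits (c.map φ)).eq_prod_roots_of_monic hcm).symm
  have hcard : Multiset.card s = (c.map φ).natDegree := by
    rw [← hsplit, Polynomial.natDegree_multiset_prod_X_sub_C_eq_card]
  have hdeg : (c.map φ).natDegree = c.natDegree := Polynomial.natDegree_map φ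
  -- the series over `Fq`
  have hmapB : PowerSeries.map φ (rv c) = rv (c.map φ) := by
    ext n
    rw [PowerSeries.coeff_map, rv, rv, coeff_sum_rev, coeff_sum_rev, hdeg]
    split_ifs
    · rw [Polynomial.coeff_map]
    · exact map_zero φ
  have hmapA : PowerSeries.map φ (rw' c) = rw' (c.map φ) := by
    ext n
    rw [PowerSeries.coeff_map, rw', rw', coeff_sum_rev, coeff_sum_rev, hdeg]
    split_ifs
    · rw [Polynomial.coeff_map, map_mul, map_natCast]
    · exact map_zero φ
  have hB0 : PowerSeries.constantCoeff (rv c) ≠ 0 := by
    rw [← PowerSeries.coeff_zero_eq_constantCoeff_apply, rv, coeff_sum_rev, if_pos (by omega),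
      Nat.sub_zero]
    rw [show c.coeff c.natDegree = 1 from hc]
    exact one_ne_zero
  have hq : rw' c * (rv c)⁻¹ * rv c = rw' c := by
    rw [mul_assoc, PowerSeries.inv_mul_cancel _ hB0, mul_one]
  have hps : ps m c = PowerSeries.coeff m (rw' c * (rv c)⁻¹) := rfl
  set Q := rw' c * (rv c)⁻¹ with hQ
  have h1 : PowerSeries.map φ Q * rv (c.map φ) = rw' (c.map φ) := by
    rw [← hmapB, ← hmapA, ← map_mul, hq]
  have h2 : rw' (c.map φ) = rv (c.map φ) * (s.map fun a => PowerSeries.mk fun m => a ^ m).sum := by
    have h5 := log_der s
    rw [← rv_prod s, hsplit] at h5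
    rw [rw_eq, ← hcard]
    exact h5
  have hne : rv (c.map φ) ≠ 0 := by
    rw [← hmapB]
    intro h
    have h3 := congrArg PowerSeries.constantCoeff h
    rw [map_zero, ← PowerSeries.coeff_zero_eq_constantCoeff_apply, PowerSeries.coeff_map] at h3
    rw [PowerSeries.coeff_zero_eq_constantCoeff_apply] at h3
    exact hB0 ((map_eq_zero_iff φ φ.injective).1 h3)
  have h3 : PowerSeries.map φ Q = (s.map fun a => PowerSeries.mk fun m => a ^ m).sum := by
    apply mul_right_cancel₀ hne
    rw [h1, h2, mul_comm]
  rw [hps, ← PowerSeries.coeff_map, h3]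
  unfold ad
  rw [← hs, map_multiset_sum, Multiset.map_map]
  congr 1
  refine Multiset.map_congr rfl fun a _ => ?_
  simp

end Run7.h937.GK
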