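import Pool.Agent.Run7.h400.GK.StmC

/-!
# Project GK, piece RNK: the adjugate of `1 - Ψ`
-/

set_option autoImplicit false

namespace Run7.h937.GK

open Polynomial Finset Run7.h400.GK Matrix

variable {E : Type} [Field E]

/-- the polynomial with coefficient vector `x` -/
noncomputable def pol {R : ℕ} (x : Fin R → E) : E[X] := ∑ i : Fin R, C (x i) * X ^ (i : ℕ)

theorem coeff_pol {R : ℕ} (x : Fin R → E) (k : ℕ) :
    (pol x).coeff k = if h : k < R then x ⟨k, h⟩ else 0 := by
  unfold pol
  rw [finsetSum_coeff]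
  simp only [coeff_C_mul, coeff_X_pow]
  by_cases h : k < R
  · rw [dif_pos h, Finset.sum_eq_single (⟨k, h⟩ : Fin R)]
    · simp
    · intro b _ hb
      rw [if_neg, mul_zero]
      intro hk
      exact hb (Fin.ext hk.symm)
    · intro h'
      exact absurd (Finset.mem_univ _) h'
  · rw [dif_neg h]
    apply Finset.sum_eq_zero
    intro b _
    rw [if_neg, mul_zero]
    have := b.2
    omega

theorem coeff_pol' {R : ℕ} (x : Fin R → E) (i : Fin R) : (pol x).coeff (i : ℕ) = x i := by
  rw [coeff_pol, dif_pos i.2]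

theorem natDegree_pol {R : ℕ} (hR : 1 ≤ R) (x : Fin R → E) : (pol x).natDegree < R := by
  have h : (pol x).natDegree ≤ R - 1 := by
    rw [natDegree_le_iff_coeff_eq_zero]
    intro N hN
    rw [coeff_pol, dif_neg]
    omega
  omega

theorem MatP_mulVec {q : ℕ} {P : E[X]} {R : ℕ} (x : Fin R → E) (i : Fin R) :
    (MatP q P R *ᵥ x) i = (pol x * P).coeff (q * i + q - 1) := by
  unfold pol
  rw [Finset.sum_mul, finsetSum_coeff]
  simp only [Matrix.mulVec, dotProduct, MatP, Matrix.of_apply]
  apply Finset.sum_congr rfl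
  intro j _
  rw [mul_assoc, coeff_C_mul, mul_comm]

theorem Lam_pol {q n R : ℕ} {P : E[X]} (hq : 2 ≤ q) (hn : 1 ≤ n) (hR : n ≤ R)
    (hd : P.natDegree = n * (q - 1)) (x : Fin R → E) :
    Lam q (pol x * P) = pol (MatP q P R *ᵥ x) := by
  ext k
  rw [coeff_Lam (by omega)]
  by_cases hk : k < R
  · have h1 := MatP_mulVec (q := q) (P := P) x ⟨k, hk⟩
    have h2 := coeff_pol' (MatP q P R *ᵥ x) ⟨k, hk⟩
    simp only at h1 h2
    rw [h2, h1]
  · rw [coeff_pol, dif_neg hk]
    apply coeff_eq_zero_of_natDegree_lt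
    have h1 : (pol x * P).natDegree ≤ (pol x).natDegree + P.natDegree := natDegree_mul_le
    have h2 := natDegree_pol (by omega : 1 ≤ R) x
    obtain ⟨p, rfl⟩ : ∃ p, q = p + 1 := ⟨q - 1, by omega⟩
    have h3 : n * p ≤ k * p := Nat.mul_le_mul_right p (by omega)
    have h4 : (p + 1) * k = k * p + k := by ring
    simp only [Nat.add_sub_cancel] at hd
    omega

theorem kap_range (n : ℕ) (h : PowerSeries E) (f : E[X]) (N : ℕ) (hN : f.natDegree < N) :
    kap n h f = ∑ j ∈ range N, f.coeff j * (if n ≤ j + 1 then PowerSeries.coeff (j + 1 - n) h else 0) := by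
  unfold kap
  rw [Polynomial.sum_over_range' _ _ N hN]
  · apply Finset.sum_congr rfl
    intro j _
    split_ifs <;> simp
  · intro j
    split_ifs <;> simp

theorem kap_X_pow (n : ℕ) (h : PowerSeries E) (j : ℕ) :
    kap n h (X ^ j) = if n ≤ j + 1 then PowerSeries.coeff (j + 1 - n) h else 0 := by
  rw [kap_range n h _ (j + 1) (by simp)]
  rw [Finset.sum_eq_single j]
  · simp
  · intro b _ hb
    rw [coeff_X_pow, if_neg hb, zero_mul]
  · intro h'
    exact absurd (by simp) h'

theorem kap_pol {R : ℕ} (hR : 1 ≤ R) (n : ℕ) (h : PowerSeries E) (x : Fin R → E) :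
    kap n h (pol x) = ∑ i : Fin R, kap n h (X ^ (i : ℕ)) * x i := by
  rw [kap_range n h _ R (natDegree_pol hR x), Finset.sum_range]
  apply Finset.sum_congr rfl
  intro i _
  rw [kap_X_pow, coeff_pol', mul_comm]

/-- kernel vectors of `1 - M` are polynomials of degree `< n` -/
theorem ker_deg {q n R : ℕ} {P : E[X]} (hq : 2 ≤ q) (hn : 1 ≤ n) (hR : n ≤ R)
    (hd : P.natDegree = n * (q - 1)) (x : Fin R → E) (hx : (1 - MatP q P R) *ᵥ x = 0) :
    Lam q (pol x * P) = pol x ∧ (pol x).natDegree < n := by
  have h0 : MatP q P R *ᵥ x = x := by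
    rw [Matrix.sub_mulVec, Matrix.one_mulVec, sub_eq_zero] at hx
    exact hx.symm
  have h1 : Lam q (pol x * P) = pol x := by
    rw [Lam_pol hq hn hR hd, h0]
  refine ⟨h1, ?_⟩
  by_contra hcon
  have hcon' : n ≤ (pol x).natDegree := by omega
  have hne : pol x ≠ 0 := by
    intro h
    rw [h, natDegree_zero] at hcon'
    omega
  have h2 : (pol x).coeff (pol x).natDegree = 0 := by
    rw [← h1]
    rw [coeff_Lam (by omega), h1]
    apply coeff_eq_zero_of_natDegree_lt
    have h3 : (pol x * P).natDegree ≤ (pol x).natDegree + P.natDegree := natDegree_mul_le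
    set r := (pol x).natDegree with hr
    obtain ⟨p, rfl⟩ : ∃ p, q = p + 1 := ⟨q - 1, by omega⟩
    have h4 : n * p ≤ r * p := Nat.mul_le_mul_right p hcon'
    have h5 : (p + 1) * r = r * p + r := by ring
    simp only [Nat.add_sub_cancel] at hd
    omega
  rw [coeff_natDegree, leadingCoeff_eq_zero] at h2
  exact hne h2

theorem t_RNK : S_KAP → S_RNK := by
  intro hKAP E _ q n R P h hq hn hR hmon hd hF
  set M := MatP q P R with hM
  set B := (1 : Matrix (Fin R) (Fin R) E) - M with hB
  set A := B.adjugate with hA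
  have hR1 : 1 ≤ R := by omega
  -- the row vector kappa
  set κ : Fin R → E := fun j => kap n h (X ^ (j : ℕ)) with hκ
  have hκB : κ ᵥ* B = 0 := by
    have h1 : ∀ x : Fin R → E, κ ⬝ᵥ (B *ᵥ x) = 0 := by
      intro x
      have h2 := hKAP E q n P h hq hn hd hF (pol x)
      rw [Lam_pol hq hn hR hd, kap_pol hR1, kap_pol hR1] at h2
      rw [hB, Matrix.sub_mulVec, Matrix.one_mulVec, dotProduct_sub, sub_eq_zero]
      exact h2.symm
    ext j
    have h3 := h1 (Pi.single j 1)
    rw [Matrix.dotProduct_mulVec] at h3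
    simpa using h3
  let m0 : Fin R := ⟨n - 1, by omega⟩
  have hm0 : ((m0 : Fin R) : ℕ) + 1 = n := by
    change n - 1 + 1 = n
    omega
  have hκ0 : κ m0 = 1 := by
    simp only [hκ]
    rw [kap_X_pow, if_pos (by omega)]
    have : ((m0 : Fin R) : ℕ) + 1 - n = 0 := by omega
    rw [this, PowerSeries.coeff_zero_eq_constantCoeff]
    exact hF.1
  have hκne : κ ≠ 0 := by
    intro h0
    rw [h0] at hκ0
    exact zero_ne_one hκ0
  have hdet : B.det = 0 := by
    have h1 : (κ ᵥ* B) ᵥ* A = 0 := by rw [hκB, Matrix.zero_vecMul]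
    rw [Matrix.vecMul_vecMul, hA, Matrix.mul_adjugate] at h1
    have h2 := congrFun h1 m0
    rw [Matrix.vecMul_smul, Matrix.vecMul_one] at h2
    simpa [hκ0] using h2
  have hBA : B * A = 0 := by rw [hA, Matrix.mul_adjugate, hdet, zero_smul]
  have hAB : A * B = 0 := by rw [hA, Matrix.adjugate_mul, hdet, zero_smul]
  -- columns of A
  have hcol : ∀ l : Fin R, B *ᵥ (fun i => A i l) = 0 := by
    intro l
    ext i
    have := congrFun (congrFun hBA i) l
    simpa [Matrix.mul_apply, Matrix.mulVec, dotProduct] using this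
  have hrow : ∀ i : Fin R, (fun l => A i l) ᵥ* B = 0 := by
    intro i
    ext l
    have := congrFun (congrFun hAB i) l
    simpa [Matrix.mul_apply, Matrix.vecMul, dotProduct] using this
  have hsum : ∀ i : Fin R, (∑ l : Fin R, if (l : ℕ) + 1 = n then A i l else 0) = A i m0 := by
    intro i
    rw [Finset.sum_eq_single m0]
    · rw [if_pos hm0]
    · intro b _ hb
      rw [if_neg]
      intro hb'
      apply hb
      apply Fin.ext
      omega
    · intro h'
      exact absurd (Finset.mem_univ _) h'
  refine ⟨?_, ?_, ?_⟩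
  · intro i j
    rw [hsum]
    by_cases hA0 : A = 0
    · rw [hA0]
      simp
    · -- an entry of A is nonzero
      obtain ⟨i0, j0, hij⟩ : ∃ i0 j0, A i0 j0 ≠ 0 := by
        by_contra hcon
        push Not at hcon
        apply hA0
        ext a b
        simpa using hcon a b
      set B' := B.updateRow j0 (Pi.single i0 1) with hB'
      have hdet' : B'.det ≠ 0 := by
        rw [hA, Matrix.adjugate_apply] at hij
        exact hij
      have hinj : ∀ v : Fin R → E, v ᵥ* B' = 0 → v = 0 := by
        intro v hv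
        have h1 : (v ᵥ* B') ᵥ* B'.adjugate = 0 := by rw [hv, Matrix.zero_vecMul]
        rw [Matrix.vecMul_vecMul, Matrix.mul_adjugate, Matrix.vecMul_smul, Matrix.vecMul_one] at h1
        exact (smul_eq_zero.mp h1).resolve_left hdet'
      have hker : ∀ v : Fin R → E, v ᵥ* B = 0 →
          v ᵥ* B' = v j0 • ((Pi.single i0 1 : Fin R → E) - B j0) := by
        intro v hv
        ext l
        have h1 := congrFun hv l
        simp only [Matrix.vecMul, dotProduct, Pi.zero_apply] at h1
        simp only [Matrix.vecMul, dotProduct, Pi.smul_apply, Pi.sub_apply, smul_eq_mul]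
        have h2 : ∀ k, v k * B' k l = v k * B k l +
            if k = j0 then v j0 * ((Pi.single i0 1 : Fin R → E) l - B j0 l) else 0 := by
          intro k
          rw [hB', Matrix.updateRow_apply]
          by_cases hk : k = j0
          · subst hk
            rw [if_pos rfl, if_pos rfl]
            ring
          · rw [if_neg hk, if_neg hk, add_zero]
        simp only [h2]
        rw [Finset.sum_add_distrib, h1, zero_add, Finset.sum_ite_eq' Finset.univ j0, if_pos (Finset.mem_univ _)]
      have hκj0 : κ j0 ≠ 0 := by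
        intro h0
        apply hκne
        apply hinj
        rw [hker κ hκB, h0, zero_smul]
      have hprop : ∀ v : Fin R → E, v ᵥ* B = 0 → ∀ j, κ j0 * v j = v j0 * κ j := by
        intro v hv j
        have h1 : (κ j0 • v - v j0 • κ) ᵥ* B' = 0 := by
          rw [Matrix.sub_vecMul, Matrix.smul_vecMul, Matrix.smul_vecMul, hker v hv, hker κ hκB,
            smul_smul, smul_smul, mul_comm, sub_self]
        have h2 := congrFun (hinj _ h1) j
        simp only [Pi.sub_apply, Pi.smul_apply, smul_eq_mul, Pi.zero_apply, sub_eq_zero] at h2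
        exact h2
      have h1 : κ j0 * A i j = A i j0 * κ j := hprop (fun l => A i l) (hrow i) j
      have h2 : κ j0 * A i m0 = A i j0 * κ m0 := hprop (fun l => A i l) (hrow i) m0
      rw [hκ0, mul_one] at h2
      -- κ j0 * A i m0 = A i j0, κ j0 * A i j = A i j0 * κ j
      rw [← h2, mul_assoc] at h1
      exact mul_left_cancel₀ hκj0 h1
  · intro i hi l hl
    have h1 := ker_deg hq hn hR hd _ (hcol l)
    have h2 : (pol fun i => A i l).coeff (i : ℕ) = A i l := coeff_pol' (fun i => A i l) i
    rw [← h2]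
    apply coeff_eq_zero_of_natDegree_lt
    omega
  · intro hA0
    obtain ⟨x, hx0, hx⟩ := Matrix.exists_mulVec_eq_zero_iff.mpr hdet
    obtain ⟨i, hi⟩ : ∃ i, x i ≠ 0 := by
      by_contra hcon
      push Not at hcon
      exact hx0 (funext hcon)
    have hdet' : (B.updateRow m0 (Pi.single i 1)).det = 0 := by
      rw [← Matrix.adjugate_apply]
      change A i m0 = 0
      rw [hA0]
      rfl
    obtain ⟨y, hy0, hy⟩ := Matrix.exists_mulVec_eq_zero_iff.mpr hdet'
    have hyi : y i = 0 := by
      have := congrFun hy m0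
      simpa [Matrix.mulVec, Matrix.updateRow_self] using this
    have hyk : ∀ k, k ≠ m0 → (B *ᵥ y) k = 0 := by
      intro k hk
      have := congrFun hy k
      simpa [Matrix.mulVec, Matrix.updateRow_ne hk] using this
    have hym : (B *ᵥ y) m0 = 0 := by
      have h1 : κ ⬝ᵥ (B *ᵥ y) = 0 := by
        rw [Matrix.dotProduct_mulVec, hκB, zero_dotProduct]
      rw [dotProduct, Finset.sum_eq_single m0] at h1
      · rw [hκ0, one_mul] at h1
        exact h1
      · intro b _ hb
        rw [hyk b hb, mul_zero]
      · intro h'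
        exact absurd (Finset.mem_univ _) h'
    have hyB : B *ᵥ y = 0 := by
      ext k
      by_cases hk : k = m0
      · rw [hk, hym]
        rfl
      · rw [hyk k hk]
        rfl
    obtain ⟨k, hk⟩ : ∃ k, y k ≠ 0 := by
      by_contra hcon
      push Not at hcon
      exact hy0 (funext hcon)
    refine ⟨![pol x, pol y], ?_, ?_⟩
    · rw [LinearIndependent.pair_iff]
      intro s t hst
      have h1 := congrArg (fun f => f.coeff (i : ℕ)) hst
      simp only [coeff_add, coeff_smul, coeff_pol', coeff_zero, smul_eq_mul, hyi, mul_zero,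
        add_zero] at h1
      have hs : s = 0 := (mul_eq_zero.mp h1).resolve_right hi
      refine ⟨hs, ?_⟩
      have h2 := congrArg (fun f => f.coeff (k : ℕ)) hst
      simp only [coeff_add, coeff_smul, coeff_pol', coeff_zero, smul_eq_mul, hs, zero_mul,
        zero_add] at h2
      exact (mul_eq_zero.mp h2).resolve_right hk
    · intro a
      fin_cases a
      · have := ker_deg hq hn hR hd x hx
        exact ⟨this.2, this.1⟩
      · have := ker_deg hq hn hR hd y hyB
        exact ⟨this.2, this.1⟩

end Run7.h937.GK
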